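import Pool.Agent.R5.GC.Game

/-!
# The activation strategy

If `r` is an injective ranking of the vertices of `H` and for each `u` there are at most `ρ` vertices
`y` of smaller rank which are adjacent to `u` or have with `u` a common neighbour of larger rank,
then the game colouring number of `H` is at most `3 ρ + 3`.
-/

namespace Pool.Agent.R5.GC

open Finset Classical

variable {V : Type*}

/-- The set of vertices of smaller rank, adjacent to `u` or to a neighbour of `u` of larger rank. -/
def Rset (H : SimpleGraph V) (r : V → ℕ) (u : V) : Set V :=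
  {y | r y < r u ∧ (H.Adj u y ∨ ∃ x, r u < r x ∧ H.Adj x u ∧ H.Adj x y)}

noncomputable def cnt (M A : Finset V) (y : V) : ℕ := (if y ∈ A then 1 else 0) + (if y ∈ M then 1 else 0)

structure Inv (H : SimpleGraph V) (r : V → ℕ) (M A : Finset V) (p : V → Option V) : Prop where
  sub : M ⊆ A
  ptr : ∀ x ∈ A, ∀ u, u ∉ M → r u < r x → H.Adj x u → ∃ y, p x = some y ∧ r y ≤ r u ∧ H.Adj x y
  num : ∀ y, (A.filter (fun x => p x = some y)).card ≤ cnt M A y

lemma cnt_insert_M {M A : Finset V} {x : V} (hx : x ∉ M) (y : V) :
    cnt (insert x M) A y = cnt M A y + (if y = x then 1 else 0) := by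
  unfold cnt
  by_cases h : y = x
  · subst h; simp [hx]
  · simp [h]

lemma cnt_insert_A {M A : Finset V} {x : V} (hx : x ∉ A) (y : V) :
    cnt M (insert x A) y = cnt M A y + (if y = x then 1 else 0) := by
  unfold cnt
  by_cases h : y = x
  · subst h; simp [hx]; omega
  · simp [h]

lemma filter_update {A : Finset V} {x : V} (hx : x ∉ A) (p : V → Option V) (o : Option V) (y : V) :
    ((insert x A).filter (fun z => Function.update p x o z = some y)).card
      = (A.filter (fun z => p z = some y)).card + (if o = some y then 1 else 0) := by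
  have h1 : (A.filter (fun z => Function.update p x o z = some y))
      = A.filter (fun z => p z = some y) := by
    apply Finset.filter_congr
    intro z hz
    have : z ≠ x := fun h => hx (h ▸ hz)
    rw [Function.update_of_ne this]
  rw [Finset.filter_insert]
  by_cases h : o = some y
  · simp only [Function.update_self, h, if_true]
    rw [h] at h1
    rw [Finset.card_insert_of_notMem, h1]
    rw [h1]
    intro hmem
    exact hx (Finset.mem_filter.1 hmem).1
  · simp only [Function.update_self, h, if_false, h1]
    rfl

variable [Fintype V]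

/-- The chase: the token is at the unmarked vertex `x`. -/
lemma chase (H : SimpleGraph V) (r : V → ℕ) : ∀ (N : ℕ) (M A : Finset V) (p : V → Option V) (x : V),
    r x ≤ N → x ∉ M → M ⊆ A →
    (∀ x ∈ A, ∀ u, u ∉ M → r u < r x → H.Adj x u → ∃ y, p x = some y ∧ r y ≤ r u ∧ H.Adj x y) →
    (∀ y, (A.filter (fun x => p x = some y)).card ≤ cnt M A y + (if y = x then 1 else 0)) →
    ∃ v, v ∉ M ∧ ∃ A' p', Inv H r (insert v M) A' p' := by
  intro N
  induction N with
  | zero =>
    intro M A p x hr hx hsub h2 h3
    by_cases hxA : x ∈ A
    · refine ⟨x, hx, A, p, ?_, ?_, ?_⟩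
      · intro z hz
        rcases Finset.mem_insert.1 hz with h | h
        · rw [h]; exact hxA
        · exact hsub h
      · intro z hz u hu
        exact h2 z hz u (fun h => hu (Finset.mem_insert_of_mem h))
      · intro y; rw [cnt_insert_M hx]; exact h3 y
    · refine ⟨x, hx, insert x A, Function.update p x none, ?_, ?_, ?_⟩
      · exact Finset.insert_subset_insert x hsub
      · intro z hz u hu hru hadj
        have hu' : u ∉ M := fun h => hu (Finset.mem_insert_of_mem h)
        rcases Finset.mem_insert.1 hz with h | h
        · subst h; omega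
        · have hzx : z ≠ x := fun e => hxA (e ▸ h)
          rw [Function.update_of_ne hzx]
          exact h2 z h u hu' hru hadj
      · intro y
        rw [filter_update hxA, cnt_insert_M hx, cnt_insert_A hxA]
        have := h3 y
        simp only [reduceCtorEq, if_false]
        omega
  | succ N ih =>
    intro M A p x hr hx hsub h2 h3
    by_cases hxA : x ∈ A
    · refine ⟨x, hx, A, p, ?_, ?_, ?_⟩
      · intro z hz
        rcases Finset.mem_insert.1 hz with h | h
        · rw [h]; exact hxA
        · exact hsub h
      · intro z hz u hu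
        exact h2 z hz u (fun h => hu (Finset.mem_insert_of_mem h))
      · intro y; rw [cnt_insert_M hx]; exact h3 y
    · by_cases hex : ∃ u, u ∉ M ∧ r u < r x ∧ H.Adj x u
      · -- the least such vertex
        obtain ⟨y0, ⟨hy1, hy2, hy3⟩, hmin⟩ :
            ∃ y0, (y0 ∉ M ∧ r y0 < r x ∧ H.Adj x y0) ∧
              ∀ u, (u ∉ M ∧ r u < r x ∧ H.Adj x u) → r y0 ≤ r u := by
          have hne : (Finset.univ.filter (fun u => u ∉ M ∧ r u < r x ∧ H.Adj x u)).Nonempty := by
            obtain ⟨u, hu⟩ := hex
            exact ⟨u, by simpa using hu⟩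
          obtain ⟨y0, hy0, hm⟩ := Finset.exists_min_image _ r hne
          refine ⟨y0, by simpa using hy0, fun u hu => hm u (by simpa using hu)⟩
        obtain ⟨v, hv, A', p', hinv⟩ := ih M (insert x A) (Function.update p x (some y0)) y0
          (by omega) hy1 (fun z hz => Finset.mem_insert_of_mem (hsub hz)) (by
            intro z hz u hu hru hadj
            rcases Finset.mem_insert.1 hz with h | h
            · subst h
              refine ⟨y0, by simp, hmin u ⟨hu, hru, hadj⟩, hy3⟩
            · have hzx : z ≠ x := fun e => hxA (e ▸ h)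
              rw [Function.update_of_ne hzx]
              exact h2 z h u hu hru hadj) (by
            intro y
            rw [filter_update hxA, cnt_insert_A hxA]
            have := h3 y
            have e : (if some y0 = some y then 1 else 0) = (if y = y0 then 1 else 0) := by
              simp [eq_comm]
            rw [e]
            omega)
        exact ⟨v, hv, A', p', hinv⟩
      · refine ⟨x, hx, insert x A, Function.update p x none, ?_, ?_, ?_⟩
        · exact Finset.insert_subset_insert x hsub
        · intro z hz u hu hru hadj
          have hu' : u ∉ M := fun h => hu (Finset.mem_insert_of_mem h)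
          rcases Finset.mem_insert.1 hz with h | h
          · subst h
            exact absurd ⟨u, hu', hru, hadj⟩ hex
          · have hzx : z ≠ x := fun e => hxA (e ▸ h)
            rw [Function.update_of_ne hzx]
            exact h2 z h u hu' hru hadj
        · intro y
          rw [filter_update hxA, cnt_insert_M hx, cnt_insert_A hxA]
          have := h3 y
          simp only [reduceCtorEq, if_false]
          omega

/-- The free move: Alice marks the unmarked vertex of least rank. -/
lemma free_move (H : SimpleGraph V) (r : V → ℕ) (M A : Finset V) (p : V → Option V)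
    (hI : Inv H r M A p) (hex : ∃ v, v ∉ M) :
    ∃ v, v ∉ M ∧ ∃ A' p', Inv H r (insert v M) A' p' := by
  obtain ⟨v, hv, hmin⟩ : ∃ v, v ∉ M ∧ ∀ u, u ∉ M → r v ≤ r u := by
    have hne : (Finset.univ.filter (fun u => u ∉ M)).Nonempty := by
      obtain ⟨u, hu⟩ := hex
      exact ⟨u, by simpa using hu⟩
    obtain ⟨y0, hy0, hm⟩ := Finset.exists_min_image _ r hne
    exact ⟨y0, by simpa using hy0, fun u hu => hm u (by simpa using hu)⟩
  refine ⟨v, hv, ?_⟩
  by_cases hvA : v ∈ A
  · refine ⟨A, p, ?_, ?_, ?_⟩
    · intro z hz
      rcases Finset.mem_insert.1 hz with h | h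
      · rw [h]; exact hvA
      · exact hI.sub h
    · intro z hz u hu
      exact hI.ptr z hz u (fun h => hu (Finset.mem_insert_of_mem h))
    · intro y; rw [cnt_insert_M hv]; exact (hI.num y).trans (by omega)
  · refine ⟨insert v A, Function.update p v none, ?_, ?_, ?_⟩
    · exact Finset.insert_subset_insert v hI.sub
    · intro z hz u hu hru hadj
      have hu' : u ∉ M := fun h => hu (Finset.mem_insert_of_mem h)
      rcases Finset.mem_insert.1 hz with h | h
      · subst h
        have := hmin u hu'
        omega
      · have hzx : z ≠ v := fun e => hvA (e ▸ h)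
        rw [Function.update_of_ne hzx]
        exact hI.ptr z h u hu' hru hadj
    · intro y
      rw [filter_update hvA, cnt_insert_M hv, cnt_insert_A hvA]
      have := hI.num y
      simp only [reduceCtorEq, if_false]
      omega

/-- Alice's answer to Bob's move `b`. -/
lemma answer (H : SimpleGraph V) (r : V → ℕ) (M A : Finset V) (p : V → Option V)
    (hI : Inv H r M A p) (b : V) (hb : b ∉ M) (hex : ∃ v, v ∉ insert b M) :
    ∃ v, v ∉ insert b M ∧ ∃ A' p', Inv H r (insert v (insert b M)) A' p' := by
  by_cases hbA : b ∈ A
  · have hI' : Inv H r (insert b M) A p := by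
      refine ⟨?_, ?_, ?_⟩
      · intro z hz
        rcases Finset.mem_insert.1 hz with h | h
        · rw [h]; exact hbA
        · exact hI.sub h
      · intro z hz u hu
        exact hI.ptr z hz u (fun h => hu (Finset.mem_insert_of_mem h))
      · intro y; rw [cnt_insert_M hb]; exact (hI.num y).trans (by omega)
    exact free_move H r _ A p hI' hex
  · by_cases hx : ∃ u, u ∉ insert b M ∧ r u < r b ∧ H.Adj b u
    · obtain ⟨y0, ⟨hy1, hy2, hy3⟩, hmin⟩ :
          ∃ y0, (y0 ∉ insert b M ∧ r y0 < r b ∧ H.Adj b y0) ∧
            ∀ u, (u ∉ insert b M ∧ r u < r b ∧ H.Adj b u) → r y0 ≤ r u := by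
        have hne : (Finset.univ.filter (fun u => u ∉ insert b M ∧ r u < r b ∧ H.Adj b u)).Nonempty := by
          obtain ⟨u, hu⟩ := hx
          exact ⟨u, by simpa using hu⟩
        obtain ⟨y0, hy0, hm⟩ := Finset.exists_min_image _ r hne
        refine ⟨y0, by simpa using hy0, fun u hu => hm u (by simpa using hu)⟩
      refine chase H r (r y0) (insert b M) (insert b A) (Function.update p b (some y0)) y0
        le_rfl hy1 (Finset.insert_subset_insert b hI.sub) ?_ ?_
      · intro z hz u hu hru hadj
        rcases Finset.mem_insert.1 hz with h | h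
        · subst h
          refine ⟨y0, by simp, hmin u ⟨hu, hru, hadj⟩, hy3⟩
        · have hzx : z ≠ b := fun e => hbA (e ▸ h)
          rw [Function.update_of_ne hzx]
          exact hI.ptr z h u (fun h => hu (Finset.mem_insert_of_mem h)) hru hadj
      · intro y
        rw [filter_update hbA, cnt_insert_M hb, cnt_insert_A hbA]
        have := hI.num y
        have e : (if some y0 = some y then 1 else 0) = (if y = y0 then 1 else 0) := by
          simp [eq_comm]
        rw [e]
        omega
    · have hI' : Inv H r (insert b M) (insert b A) (Function.update p b none) := by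
        refine ⟨Finset.insert_subset_insert b hI.sub, ?_, ?_⟩
        · intro z hz u hu hru hadj
          rcases Finset.mem_insert.1 hz with h | h
          · subst h
            exact absurd ⟨u, hu, hru, hadj⟩ hx
          · have hzx : z ≠ b := fun e => hbA (e ▸ h)
            rw [Function.update_of_ne hzx]
            exact hI.ptr z h u (fun h => hu (Finset.mem_insert_of_mem h)) hru hadj
        · intro y
          rw [filter_update hbA, cnt_insert_M hb, cnt_insert_A hbA]
          have := hI.num y
          simp only [reduceCtorEq, if_false]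
          omega
      exact free_move H r _ _ _ hI' hex

/-- The number of marked neighbours of an unmarked vertex. -/
lemma marked_le (H : SimpleGraph V) (r : V → ℕ) (hr : Function.Injective r) (ρ : ℕ)
    (hρ : ∀ u, (Rset H r u).ncard ≤ ρ)
    (M A : Finset V) (p : V → Option V) (hI : Inv H r M A p) (u : V) (hu : u ∉ M) :
    {w | w ∈ M ∧ H.Adj u w}.ncard ≤ 3 * ρ + 1 := by
  set R : Finset V := (Set.toFinite (Rset H r u)).toFinset with hR
  have hRmem : ∀ y, y ∈ R ↔ y ∈ Rset H r u := by intro y; simp [hR]
  have hRcard : R.card ≤ ρ := by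
    have := hρ u
    rwa [Set.ncard_eq_toFinset_card _ (Set.toFinite _)] at this
  have huR : u ∉ R := by
    rw [hRmem]
    intro h
    exact lt_irrefl _ h.1
  have hsub : {w | w ∈ M ∧ H.Adj u w} ⊆
      ((R ∪ (insert u R).biUnion (fun y => A.filter (fun x => p x = some y)) : Finset V) : Set V) := by
    intro w hw
    obtain ⟨hwM, hadj⟩ := hw
    rw [Finset.mem_coe, Finset.mem_union]
    have hne : r w ≠ r u := fun h => H.ne_of_adj hadj (hr h).symm
    rcases Nat.lt_or_gt_of_ne hne with h | h
    · left
      rw [hRmem]
      exact ⟨h, Or.inl hadj⟩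
    · right
      obtain ⟨y, hy1, hy2, hy3⟩ := hI.ptr w (hI.sub hwM) u hu h hadj.symm
      rw [Finset.mem_biUnion]
      refine ⟨y, ?_, ?_⟩
      · rw [Finset.mem_insert]
        rcases Nat.lt_or_ge (r y) (r u) with h' | h'
        · right
          rw [hRmem]
          exact ⟨h', Or.inr ⟨w, h, hadj.symm, hy3⟩⟩
        · left
          exact hr (le_antisymm hy2 h')
      · rw [Finset.mem_filter]
        exact ⟨hI.sub hwM, hy1⟩
  have h1 := Set.ncard_le_ncard hsub (Set.toFinite _)
  rw [Set.ncard_coe_finset] at h1
  have h2 : ((insert u R).biUnion (fun y => A.filter (fun x => p x = some y))).card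
      ≤ ∑ y ∈ insert u R, cnt M A y :=
    Finset.card_biUnion_le.trans (Finset.sum_le_sum (fun y _ => hI.num y))
  have h3 : ∑ y ∈ insert u R, cnt M A y ≤ 1 + 2 * R.card := by
    rw [Finset.sum_insert huR]
    have e1 : cnt M A u ≤ 1 := by
      unfold cnt
      simp only [hu, if_false]
      split_ifs <;> omega
    have e2 : ∑ y ∈ R, cnt M A y ≤ ∑ y ∈ R, 2 := by
      apply Finset.sum_le_sum
      intro y _
      unfold cnt
      split_ifs <;> omega
    rw [Finset.sum_const, smul_eq_mul] at e2
    omega
  have h4 := Finset.card_union_le R ((insert u R).biUnion (fun y => A.filter (fun x => p x = some y)))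
  omega

theorem activation (H : SimpleGraph V) (r : V → ℕ) (hr : Function.Injective r) (ρ : ℕ)
    (hρ : ∀ u, (Rset H r u).ncard ≤ ρ) [Nonempty V] : Guarantees H (3 * ρ + 3) := by
  have := guarantees_of_good H (fun M => ∃ A p, Inv H r M A p) (3 * ρ + 1) ?_ ?_ ?_
  · exact this
  · have hI : Inv H r ∅ ∅ (fun _ => none) := ⟨by simp, by simp, by simp⟩
    obtain ⟨v, _, h⟩ := free_move H r ∅ ∅ _ hI ⟨Classical.arbitrary V, by simp⟩
    exact ⟨v, by simpa using h⟩
  · rintro M b ⟨A, p, hI⟩ hb hex
    exact answer H r M A p hI b hb hex
  · rintro M u ⟨A, p, hI⟩ hu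
    exact marked_le H r hr ρ hρ M A p hI u hu

end Pool.Agent.R5.GC
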