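import Mathlib

/-!
# The marking game: definitions and the activation strategy bound
-/

namespace Pool.Agent.R5.GC

variable {V : Type*}

/-- A (complete) play of the marking game on the vertex set `V`: the list of all the vertices in
the order in which they are marked, without repetition. -/
def IsPlay (l : List V) : Prop := l.Nodup ∧ ∀ v : V, v ∈ l

/-- A strategy for Alice: from the list of the vertices marked so far it names the vertex she marks;
this vertex is unmarked whenever there is an unmarked vertex. -/
def IsStrategy (σ : List V → V) : Prop := ∀ l : List V, (∃ v, v ∉ l) → σ l ∉ l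

/-- Alice, who makes the moves number `0, 2, 4, …`, follows her strategy `σ` in `l`. -/
def Follows (σ : List V → V) (l : List V) : Prop :=
  ∀ (i : ℕ) (hi : i < l.length), Even i → l[i] = σ (l.take i)

/-- The score of the play `l` on the graph `H` is at most `s`: for every vertex, one plus the number
of its neighbours marked before it is at most `s`. -/
def ScoreLE (H : SimpleGraph V) (l : List V) (s : ℕ) : Prop :=
  ∀ (i : ℕ) (hi : i < l.length), 1 + {w | w ∈ l.take i ∧ H.Adj l[i] w}.ncard ≤ s

/-- Alice can guarantee a score at most `s` in the marking game on `H`, where she moves first. -/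
def Guarantees (H : SimpleGraph V) (s : ℕ) : Prop :=
  ∃ σ : List V → V, IsStrategy σ ∧ ∀ l : List V, IsPlay l → Follows σ l → ScoreLE H l s

/-- The game colouring number. -/
noncomputable def colg (H : SimpleGraph V) : ℕ := sInf {s | Guarantees H s}

/-! ### From a family of good positions to a strategy -/

theorem guarantees_of_good [Fintype V] [DecidableEq V] [Nonempty V] (H : SimpleGraph V)
    (Good : Finset V → Prop) (B : ℕ)
    (h0 : ∃ v : V, Good {v})
    (h1 : ∀ M b, Good M → b ∉ M → (∃ v, v ∉ insert b M) →
      ∃ v, v ∉ insert b M ∧ Good (insert v (insert b M)))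
    (h2 : ∀ M u, Good M → u ∉ M → {w | w ∈ M ∧ H.Adj u w}.ncard ≤ B) :
    Guarantees H (B + 2) := by
  classical
  -- the strategy
  have key : ∀ l : List V, ∃ v : V,
      ((∃ w, w ∉ l) → v ∉ l) ∧
      ((∃ w, w ∉ l ∧ Good (insert w l.toFinset)) → Good (insert v l.toFinset)) := by
    intro l
    by_cases hg : ∃ w, w ∉ l ∧ Good (insert w l.toFinset)
    · obtain ⟨w, hw, hw'⟩ := hg
      exact ⟨w, fun _ => hw, fun _ => hw'⟩
    · by_cases he : ∃ w, w ∉ l
      · obtain ⟨w, hw⟩ := he
        exact ⟨w, fun _ => hw, fun h => absurd h hg⟩
      · exact ⟨Classical.arbitrary V, fun h => absurd h he, fun h => absurd h hg⟩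
  choose σ hσ1 hσ2 using key
  refine ⟨σ, fun l hl => hσ1 l hl, ?_⟩
  intro l hl hf
  -- goodness after Alice's moves
  have hgood : ∀ j, 2 * j < l.length → Good (l.take (2 * j + 1)).toFinset := by
    intro j
    induction j with
    | zero =>
      intro hj
      have e1 : l.take (2 * 0 + 1) = [l[0]] := by
        rw [show 2 * 0 + 1 = 0 + 1 from rfl, List.take_succ_eq_append_getElem hj]
        simp
      have e2 : l[0] = σ (l.take 0) := hf 0 hj (by simp)
      have e3 : Good (insert (σ []) ([] : List V).toFinset) := by
        apply hσ2
        obtain ⟨v, hv⟩ := h0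
        exact ⟨v, by simp, by simpa using hv⟩
      rw [e1, e2]
      simpa using e3
    | succ j ih =>
      intro hj
      have hj0 : 2 * j < l.length := by omega
      have hj1 : 2 * j + 1 < l.length := by omega
      have hj2 : 2 * j + 1 + 1 < l.length := by omega
      have g := ih hj0
      have t1 : l.take (2 * j + 1 + 1) = l.take (2 * j + 1) ++ [l[2 * j + 1]] :=
        List.take_succ_eq_append_getElem hj1
      have t2 : l.take (2 * j + 1 + 1 + 1) = l.take (2 * j + 1 + 1) ++ [l[2 * j + 1 + 1]] :=
        List.take_succ_eq_append_getElem hj2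
      have e2 : l[2 * j + 1 + 1] = σ (l.take (2 * j + 1 + 1)) :=
        hf _ hj2 ⟨j + 1, by ring⟩
      have hb : l[2 * j + 1] ∉ (l.take (2 * j + 1)).toFinset := by
        rw [List.mem_toFinset]
        intro hmem
        have hnd : (l.take (2 * j + 1 + 1)).Nodup := hl.1.sublist (List.take_sublist _ _)
        rw [t1, List.nodup_append] at hnd
        exact hnd.2.2 _ hmem _ (by simp) rfl
      have hv : l[2 * j + 1 + 1] ∉ l.take (2 * j + 1 + 1) := by
        intro hmem
        have hnd : (l.take (2 * j + 1 + 1 + 1)).Nodup := hl.1.sublist (List.take_sublist _ _)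
        rw [t2, List.nodup_append] at hnd
        exact hnd.2.2 _ hmem _ (by simp) rfl
      have tf : (l.take (2 * j + 1 + 1)).toFinset
          = insert l[2 * j + 1] (l.take (2 * j + 1)).toFinset := by
        rw [t1]; ext x
        simp only [List.mem_toFinset, List.mem_append, List.mem_singleton, Finset.mem_insert]
        tauto
      have hex : ∃ v, v ∉ insert l[2 * j + 1] (l.take (2 * j + 1)).toFinset := by
        refine ⟨l[2 * j + 1 + 1], ?_⟩
        rw [← tf, List.mem_toFinset]
        exact hv
      obtain ⟨v, hv1, hv2⟩ := h1 _ _ g hb hex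
      rw [← tf] at hv1 hv2
      have := hσ2 (l.take (2 * j + 1 + 1)) ⟨v, by simpa using hv1, hv2⟩
      rw [show 2 * (j + 1) + 1 = 2 * j + 1 + 1 + 1 by ring, t2]
      have tf2 : (l.take (2 * j + 1 + 1) ++ [l[2 * j + 1 + 1]]).toFinset
          = insert l[2 * j + 1 + 1] (l.take (2 * j + 1 + 1)).toFinset := by
        ext x
        simp only [List.mem_toFinset, List.mem_append, List.mem_singleton, Finset.mem_insert]
        tauto
      rw [tf2, e2]
      exact this
  intro i hi
  rcases Nat.even_or_odd' i with ⟨j, hj | hj⟩
  · rcases Nat.eq_zero_or_pos j with h | h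
    · subst h
      have : i = 0 := by omega
      subst this
      simp
    · obtain ⟨q, rfl⟩ : ∃ q, j = q + 1 := ⟨j - 1, by omega⟩
      have hi' : i = 2 * q + 1 + 1 := by omega
      subst hi'
      have g := hgood q (by omega)
      have hq1 : 2 * q + 1 < l.length := by omega
      have t1 : l.take (2 * q + 1 + 1) = l.take (2 * q + 1) ++ [l[2 * q + 1]] :=
        List.take_succ_eq_append_getElem hq1
      have hu : l[2 * q + 1 + 1] ∉ (l.take (2 * q + 1)).toFinset := by
        rw [List.mem_toFinset]
        intro hmem
        have t2 : l.take (2 * q + 1 + 1 + 1) = l.take (2 * q + 1 + 1) ++ [l[2 * q + 1 + 1]] :=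
          List.take_succ_eq_append_getElem hi
        have hnd : (l.take (2 * q + 1 + 1 + 1)).Nodup := hl.1.sublist (List.take_sublist _ _)
        rw [t2, List.nodup_append] at hnd
        refine hnd.2.2 l[2 * q + 1 + 1] ?_ _ (by simp) rfl
        rw [t1]
        exact List.mem_append_left _ hmem
      have hb := h2 _ _ g hu
      have hsub : {w | w ∈ l.take (2 * q + 1 + 1) ∧ H.Adj l[2 * q + 1 + 1] w}
          ⊆ insert l[2 * q + 1] {w | w ∈ (l.take (2 * q + 1)).toFinset ∧ H.Adj l[2 * q + 1 + 1] w} := by
        intro w hw
        simp only [Set.mem_ofPred_eq, t1, List.mem_append, List.mem_singleton] at hw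
        simp only [Set.mem_insert_iff, Set.mem_ofPred_eq, List.mem_toFinset]
        tauto
      have h3 := Set.ncard_le_ncard hsub (Set.toFinite _)
      have h4 := Set.ncard_insert_le l[2 * q + 1]
        {w | w ∈ (l.take (2 * q + 1)).toFinset ∧ H.Adj l[2 * q + 1 + 1] w}
      omega
  · subst hj
    have g := hgood j (by omega)
    have hu : l[2 * j + 1] ∉ (l.take (2 * j + 1)).toFinset := by
      rw [List.mem_toFinset]
      intro hmem
      have t2 : l.take (2 * j + 1 + 1) = l.take (2 * j + 1) ++ [l[2 * j + 1]] :=
        List.take_succ_eq_append_getElem hi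
      have hnd : (l.take (2 * j + 1 + 1)).Nodup := hl.1.sublist (List.take_sublist _ _)
      rw [t2, List.nodup_append] at hnd
      exact hnd.2.2 _ hmem _ (by simp) rfl
    have hb := h2 _ _ g hu
    have : {w | w ∈ l.take (2 * j + 1) ∧ H.Adj l[2 * j + 1] w}
        = {w | w ∈ (l.take (2 * j + 1)).toFinset ∧ H.Adj l[2 * j + 1] w} := by
      ext w; simp
    rw [this]
    omega

theorem guarantees_card [Fintype V] [Nonempty V] (H : SimpleGraph V) :
    Guarantees H (Fintype.card V + 2) := by
  classical
  refine guarantees_of_good H (fun _ => True) (Fintype.card V) ⟨Classical.arbitrary V, trivial⟩ ?_ ?_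
  · intro M b _ _ hv
    obtain ⟨v, hv⟩ := hv
    exact ⟨v, hv, trivial⟩
  · intro M u _ _
    calc {w | w ∈ M ∧ H.Adj u w}.ncard ≤ (M : Set V).ncard := by
          apply Set.ncard_le_ncard _ (Set.toFinite _)
          intro w hw; exact hw.1
      _ = M.card := Set.ncard_coe_finset M
      _ ≤ Fintype.card V := Finset.card_le_univ M

theorem colg_guarantees [Fintype V] [Nonempty V] (H : SimpleGraph V) :
    Guarantees H (colg H) := by
  have : (colg H) ∈ {s | Guarantees H s} := Nat.sInf_mem ⟨_, guarantees_card H⟩
  exact this

theorem colg_le {H : SimpleGraph V} {s : ℕ} (h : Guarantees H s) : colg H ≤ s := Nat.sInf_le h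

/-- Some play follows a given strategy. -/
theorem exists_play [Fintype V] {σ : List V → V} (hσ : IsStrategy σ) :
    ∃ l : List V, IsPlay l ∧ Follows σ l ∧ l.length = Fintype.card V := by
  classical
  have key : ∀ j, j ≤ Fintype.card V → ∃ l : List V, l.Nodup ∧ Follows σ l ∧ l.length = j := by
    intro j
    induction j with
    | zero => intro _; exact ⟨[], by simp, fun i hi => absurd hi (by simp), rfl⟩
    | succ j ih =>
      intro hj
      obtain ⟨l, hn, hf, hlen⟩ := ih (by omega)
      have hex : ∃ v, v ∉ l := by
        by_contra hcon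
        push Not at hcon
        have : (Finset.univ : Finset V) ⊆ l.toFinset := fun v _ => by simpa using hcon v
        have h1 := Finset.card_le_card this
        have h2 := List.toFinset_card_le l
        rw [Finset.card_univ] at h1
        omega
      by_cases he : Even j
      · refine ⟨l ++ [σ l], ?_, ?_, by simp [hlen]⟩
        · rw [List.nodup_append]
          refine ⟨hn, by simp, ?_⟩
          intro a ha b hb hab
          simp only [List.mem_singleton] at hb
          subst hb; subst hab
          exact hσ l hex ha
        · intro i hi hie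
          rcases Nat.lt_or_ge i l.length with h | h
          · rw [List.getElem_append_left h, hf i h hie, List.take_append_of_le_length h.le]
          · have : i = l.length := by simp at hi; omega
            subst this
            simp
      · obtain ⟨v, hv⟩ := hex
        refine ⟨l ++ [v], ?_, ?_, by simp [hlen]⟩
        · rw [List.nodup_append]
          refine ⟨hn, by simp, ?_⟩
          intro a ha b hb hab
          simp only [List.mem_singleton] at hb
          subst hb; subst hab
          exact hv ha
        · intro i hi hie
          rcases Nat.lt_or_ge i l.length with h | h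
          · rw [List.getElem_append_left h, hf i h hie, List.take_append_of_le_length h.le]
          · have : i = l.length := by simp at hi; omega
            subst this
            rw [hlen] at hie
            exact absurd hie he
  obtain ⟨l, hn, hf, hlen⟩ := key _ le_rfl
  refine ⟨l, ⟨hn, ?_⟩, hf, hlen⟩
  intro v
  have h1 : l.toFinset = Finset.univ := by
    apply Finset.eq_univ_of_card
    rw [List.toFinset_card_of_nodup hn, hlen]
  have : v ∈ l.toFinset := by rw [h1]; exact Finset.mem_univ v
  simpa using this

/-- On a complete graph the last vertex sees all the others. -/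
theorem card_le_colg_of_complete [Fintype V] [Nonempty V] (H : SimpleGraph V)
    (hH : ∀ u v, u ≠ v → H.Adj u v) : Fintype.card V ≤ colg H := by
  classical
  obtain ⟨σ, hσ, hs⟩ := colg_guarantees H
  obtain ⟨l, hp, hf, hlen⟩ := exists_play hσ
  have hpos : 0 < Fintype.card V := Fintype.card_pos
  have hi : Fintype.card V - 1 < l.length := by omega
  have h := hs l hp hf (Fintype.card V - 1) hi
  have h1 : {w | w ∈ l.take (Fintype.card V - 1) ∧ H.Adj l[Fintype.card V - 1] w}
      = ((l.take (Fintype.card V - 1)).toFinset : Set V) := by
    ext w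
    simp only [Set.mem_ofPred_eq, List.coe_toFinset, and_iff_left_iff_imp]
    intro hw
    apply hH
    rintro rfl
    have t2 : l.take (Fintype.card V - 1 + 1)
        = l.take (Fintype.card V - 1) ++ [l[Fintype.card V - 1]] :=
      List.take_succ_eq_append_getElem hi
    have hnd : (l.take (Fintype.card V - 1 + 1)).Nodup := hp.1.sublist (List.take_sublist _ _)
    rw [t2, List.nodup_append] at hnd
    exact hnd.2.2 _ hw _ (by simp) rfl
  rw [h1, Set.ncard_coe_finset, List.toFinset_card_of_nodup
    (hp.1.sublist (List.take_sublist _ _)), List.length_take] at h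
  omega

end Pool.Agent.R5.GC
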