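import Pool.Agent.R5.GC.KTree

/-!
# The lower bound: a ball in the regular tree
-/

namespace Pool.Agent.R5.GC

open Finset Classical

/-- `S b h = 1 + b + … + b^h`. -/
def S (b : ℕ) : ℕ → ℕ
  | 0 => 1
  | (h + 1) => b * S b h + 1

lemma pow_le_S (b : ℕ) : ∀ h, b ^ h ≤ S b h
  | 0 => by simp [S]
  | (h + 1) => by
    have := pow_le_S b h
    rw [S, pow_succ]
    nlinarith

lemma S_pos (b h : ℕ) : 0 < S b h := by cases h <;> simp [S]

/-- The `b`-ary tree on `{0, …, n-1}`: the parent of `i ≥ 1` is `(i - 1) / b`. -/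
def heap (b n : ℕ) : SimpleGraph (Fin n) where
  Adj i j := (1 ≤ (i : ℕ) ∧ (j : ℕ) = ((i : ℕ) - 1) / b) ∨ (1 ≤ (j : ℕ) ∧ (i : ℕ) = ((j : ℕ) - 1) / b)
  symm := by
    constructor
    intro i j h
    rcases h with h | h
    · exact Or.inr h
    · exact Or.inl h
  loopless := by
    constructor
    intro i h
    have : (i : ℕ) ≠ ((i : ℕ) - 1) / b ∨ (i : ℕ) = 0 := by
      rcases Nat.eq_zero_or_pos (i : ℕ) with h0 | h0
      · right; exact h0
      · left
        have := Nat.div_le_self ((i : ℕ) - 1) b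
        omega
    rcases h with h | h <;> rcases this with h' | h' <;> omega

lemma heap_degree (b n : ℕ) (hb : 1 ≤ b) (v : Fin n) : ((heap b n).neighborSet v).ncard ≤ b + 1 := by
  -- neighbours are mapped injectively into {parent} ∪ {b v + 1, …, b v + b}
  have hsub : (fun x : Fin n => (x : ℕ)) '' ((heap b n).neighborSet v) ⊆
      ((insert (((v : ℕ) - 1) / b) (Finset.Ioc (b * (v : ℕ)) (b * (v : ℕ) + b)) : Finset ℕ) : Set ℕ) := by
    rintro _ ⟨x, hx, rfl⟩
    rw [Finset.mem_coe, Finset.mem_insert, Finset.mem_Ioc]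
    rcases hx with ⟨_, h⟩ | ⟨h1, h2⟩
    · left; exact h
    · right
      simp only
      have e1 : b * (((x : ℕ) - 1) / b) ≤ (x : ℕ) - 1 := Nat.mul_div_le _ _
      have e2 : (x : ℕ) - 1 < b * (((x : ℕ) - 1) / b) + b := Nat.lt_mul_div_succ _ hb
      rw [← h2] at e1 e2
      omega
  have h1 := Set.ncard_le_ncard hsub (Set.toFinite _)
  rw [Set.ncard_image_of_injective _ Fin.val_injective, Set.ncard_coe_finset] at h1
  have h2 := Finset.card_insert_le (((v : ℕ) - 1) / b) (Finset.Ioc (b * (v : ℕ)) (b * (v : ℕ) + b))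
  rw [Nat.card_Ioc] at h2
  omega

lemma heap_walk (b n : ℕ) (hn : 0 < n) : ∀ (h : ℕ) (v : Fin n), (v : ℕ) < S b h →
    ∃ p : (heap b n).Walk v ⟨0, hn⟩, p.length ≤ h := by
  intro h
  induction h with
  | zero =>
    intro v hv
    have : v = ⟨0, hn⟩ := by
      apply Fin.ext
      simp only [S] at hv
      simp only
      omega
    subst this
    exact ⟨SimpleGraph.Walk.nil, by simp⟩
  | succ h ih =>
    intro v hv
    rcases Nat.eq_zero_or_pos (v : ℕ) with h0 | h0
    · have : v = ⟨0, hn⟩ := Fin.ext h0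
      subst this
      exact ⟨SimpleGraph.Walk.nil, by simp⟩
    · have hlt : ((v : ℕ) - 1) / b < S b h := by
        rw [S] at hv
        rcases Nat.eq_zero_or_pos b with hb | hb
        · subst hb
          simp at hv
          omega
        · rw [Nat.div_lt_iff_lt_mul hb]
          have : b * S b h = S b h * b := Nat.mul_comm _ _
          omega
      have hle : ((v : ℕ) - 1) / b < n := by
        have := Nat.div_le_self ((v : ℕ) - 1) b
        have := v.2
        omega
      obtain ⟨p, hp⟩ := ih ⟨((v : ℕ) - 1) / b, hle⟩ hlt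
      have hadj : (heap b n).Adj v ⟨((v : ℕ) - 1) / b, hle⟩ := Or.inl ⟨h0, rfl⟩
      exact ⟨SimpleGraph.Walk.cons hadj p, by rw [SimpleGraph.Walk.length_cons]; omega⟩

/-- The `k`-tree containing the heap: `k'` dominating vertices are added, `k = k' + 1`. -/
def heapK (k' b N : ℕ) : SimpleGraph (Fin N) where
  Adj x y := x ≠ y ∧ ((x : ℕ) < k' ∨ (y : ℕ) < k' ∨
    (k' + 1 ≤ (x : ℕ) ∧ (y : ℕ) = k' + ((x : ℕ) - (k' + 1)) / b) ∨
    (k' + 1 ≤ (y : ℕ) ∧ (x : ℕ) = k' + ((y : ℕ) - (k' + 1)) / b))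
  symm := by
    constructor
    rintro i j ⟨h, h'⟩
    exact ⟨h.symm, by tauto⟩
  loopless := by
    constructor
    rintro i ⟨h, _⟩
    exact h rfl

lemma heapK_isKTree (k' b N : ℕ) (hN : k' + 2 ≤ N) : IsKTree (k' + 1) N (heapK k' b N) := by
  refine ⟨hN, fun v => ?_⟩
  rcases Nat.lt_or_ge k' (v : ℕ) with hv | hv
  · -- v ≥ k' + 1
    set par : Fin N := ⟨k' + ((v : ℕ) - (k' + 1)) / b, by
      have := Nat.div_le_self ((v : ℕ) - (k' + 1)) b
      have := v.2
      omega⟩ with hpar
    have hparv : (par : ℕ) = k' + ((v : ℕ) - (k' + 1)) / b := rfl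
    have hparlt : (par : ℕ) < (v : ℕ) := by
      have := Nat.div_le_self ((v : ℕ) - (k' + 1)) b
      omega
    have hset : {u : Fin N | u < v ∧ (heapK k' b N).Adj u v}
        = ((insert par (Finset.Iio (⟨k', by omega⟩ : Fin N)) : Finset (Fin N)) : Set (Fin N)) := by
      ext u
      simp only [Set.mem_ofPred_eq, Finset.coe_insert, Finset.coe_Iio, Set.mem_insert_iff, Set.mem_Iio,
        Fin.lt_def, heapK]
      constructor
      · rintro ⟨h1, h2, h3 | h3 | h3 | h3⟩
        · right; exact h3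
        · omega
        · exfalso
          have := Nat.div_le_self ((u : ℕ) - (k' + 1)) b
          omega
        · left
          apply Fin.ext
          rw [hparv]; exact h3.2
      · rintro (h | h)
        · subst h
          refine ⟨hparlt, ?_, ?_⟩
          · intro h; rw [h] at hparlt; omega
          · right; right; right
            exact ⟨by omega, hparv⟩
        · refine ⟨by omega, ?_, Or.inl h⟩
          intro h'; rw [h'] at h; omega
    rw [hset]
    constructor
    · intro x hx y hy hxy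
      simp only [Finset.coe_insert, Finset.coe_Iio, Set.mem_insert_iff, Set.mem_Iio, Fin.lt_def] at hx hy
      refine ⟨hxy, ?_⟩
      rcases hx with hx | hx
      · rcases hy with hy | hy
        · exact absurd (hx.trans hy.symm) hxy
        · right; left; exact hy
      · left; exact hx
    · have hnot : par ∉ Finset.Iio (⟨k', by omega⟩ : Fin N) := by
        rw [Finset.mem_Iio, Fin.lt_def, hparv]
        exact Nat.not_lt.2 (Nat.le_add_right _ _)
      rw [Set.ncard_coe_finset, Finset.card_insert_of_notMem hnot, Fin.card_Iio]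
      show k' + 1 = _
      omega
  · have hset : {u : Fin N | u < v ∧ (heapK k' b N).Adj u v}
        = ((Finset.Iio v : Finset (Fin N)) : Set (Fin N)) := by
      ext u
      simp only [Set.mem_ofPred_eq, Finset.coe_Iio, Set.mem_Iio, and_iff_left_iff_imp]
      intro h
      exact ⟨ne_of_lt h, Or.inl (by rw [Fin.lt_def] at h; omega)⟩
    rw [hset]
    constructor
    · intro x hx y hy hxy
      simp only [Finset.coe_Iio, Set.mem_Iio, Fin.lt_def] at hx hy
      have : (x : ℕ) ≠ (y : ℕ) := fun h => hxy (Fin.ext h)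
      refine ⟨hxy, ?_⟩
      omega
    · rw [Set.ncard_coe_finset, Fin.card_Iio]
      omega

lemma heap_partial (k' b h : ℕ) (hb : 1 ≤ b) : IsPartialKTree (k' + 1) (heap b (S b h)) := by
  have hle : S b h ≤ S b (h + 1) := by
    rw [S]
    nlinarith [S_pos b h]
  refine ⟨k' + S b (h + 1), heapK k' b _, ⟨fun i => ⟨k' + i, by have := i.2; omega⟩, ?_⟩, ?_, ?_⟩
  · intro i j hij
    simp only [Fin.mk.injEq] at hij
    exact Fin.ext (by omega)
  · apply heapK_isKTree
    have : 2 ≤ S b (h + 1) := by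
      rw [S]
      nlinarith [S_pos b h]
    omega
  · intro u v huv
    have hne : u ≠ v := (heap b (S b h)).ne_of_adj huv
    refine ⟨?_, ?_⟩
    · intro h'
      apply hne
      have h'' : k' + (u : ℕ) = k' + (v : ℕ) := congrArg Fin.val h'
      exact Fin.ext (by omega)
    · show (k' + (u : ℕ)) < k' ∨ (k' + (v : ℕ)) < k' ∨
        (k' + 1 ≤ (k' + (u : ℕ)) ∧ (k' + (v : ℕ)) = k' + ((k' + (u : ℕ)) - (k' + 1)) / b) ∨
        (k' + 1 ≤ (k' + (v : ℕ)) ∧ (k' + (u : ℕ)) = k' + ((k' + (v : ℕ)) - (k' + 1)) / b)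
      rcases huv with ⟨h1, h2⟩ | ⟨h1, h2⟩
      · right; right; left
        refine ⟨by omega, ?_⟩
        rw [h2]
        congr 2
        omega
      · right; right; right
        refine ⟨by omega, ?_⟩
        rw [h2]
        congr 2
        omega

theorem lower (k m Δ : ℕ) (hk : 1 ≤ k) (hΔ : 2 ≤ Δ) :
    ∃ (n : ℕ) (G : SimpleGraph (Fin n)), IsPartialKTree k G ∧
      (∀ v, (G.neighborSet v).ncard ≤ Δ) ∧ (Δ - 1) ^ (m / 2) ≤ colg (gpow G m) := by
  obtain ⟨k', rfl⟩ : ∃ k', k = k' + 1 := ⟨k - 1, by omega⟩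
  obtain ⟨b, rfl⟩ : ∃ b, Δ = b + 1 := ⟨Δ - 1, by omega⟩
  have hpos := S_pos b (m / 2)
  refine ⟨S b (m / 2), heap b _, heap_partial k' b (m / 2) (by omega),
    heap_degree b _ (by omega), ?_⟩
  have : Nonempty (Fin (S b (m / 2))) := ⟨⟨0, hpos⟩⟩
  have h1 := card_le_colg_of_complete (gpow (heap b (S b (m / 2))) m) (by
    intro u v huv
    obtain ⟨p, hp⟩ := heap_walk b _ hpos (m / 2) u u.2
    obtain ⟨q, hq⟩ := heap_walk b _ hpos (m / 2) v v.2
    refine ⟨huv, p.append q.reverse, ?_⟩
    rw [SimpleGraph.Walk.length_append, SimpleGraph.Walk.length_reverse]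
    omega)
  rw [Fintype.card_fin] at h1
  have h2 := pow_le_S b (m / 2)
  simp only [Nat.add_sub_cancel]
  omega

end Pool.Agent.R5.GC
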