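import Pool.Agent.R5.GC.Act

/-!
# Partial k-trees, graph powers, and the ordering of the power of a partial k-tree
-/

namespace Pool.Agent.R5.GC

open Finset Classical

/-- The `m`-th power of a graph: distinct vertices at distance at most `m` are adjacent. -/
def gpow {V : Type*} (G : SimpleGraph V) (m : ℕ) : SimpleGraph V where
  Adj u v := u ≠ v ∧ ∃ p : G.Walk u v, p.length ≤ m
  symm := by
    constructor
    rintro u v ⟨h, p, hp⟩
    exact ⟨h.symm, p.reverse, by simpa using hp⟩
  loopless := by
    constructor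
    rintro u ⟨h, _⟩
    exact h rfl

/-- `H`, a graph on `{0, …, N-1}`, is a `k`-tree built in the order `0, 1, 2, …`: the first `k + 1`
vertices form a clique, and every further vertex is joined, when it is added, to exactly `k` previous
vertices, which form a clique. -/
def IsKTree (k N : ℕ) (H : SimpleGraph (Fin N)) : Prop :=
  k + 1 ≤ N ∧ ∀ v : Fin N, H.IsClique {u | u < v ∧ H.Adj u v} ∧
    {u | u < v ∧ H.Adj u v}.ncard = min (v : ℕ) k

/-- A partial `k`-tree is a subgraph of a `k`-tree. -/
def IsPartialKTree {V : Type*} (k : ℕ) (G : SimpleGraph V) : Prop :=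
  ∃ (N : ℕ) (H : SimpleGraph (Fin N)) (f : V ↪ Fin N), IsKTree k N H ∧
    ∀ u v, G.Adj u v → H.Adj (f u) (f v)

/-- Vertices reachable by at most `j` decreasing steps. -/
noncomputable def D {N : ℕ} (H : SimpleGraph (Fin N)) : ℕ → Fin N → Finset (Fin N)
  | 0, x => {x}
  | (j + 1), x => insert x ((univ.filter (fun y => y < x ∧ H.Adj y x)).biUnion (D H j))

lemma D_card {N k : ℕ} {H : SimpleGraph (Fin N)}
    (hH : ∀ v : Fin N, (univ.filter (fun y => y < v ∧ H.Adj y v)).card ≤ k) :
    ∀ (j : ℕ) (x : Fin N), (D H j x).card ≤ (k + 1) ^ j := by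
  intro j
  induction j with
  | zero => intro x; simp [D]
  | succ j ih =>
    intro x
    have h1 : (D H (j + 1) x).card ≤ ((univ.filter (fun y => y < x ∧ H.Adj y x)).biUnion (D H j)).card + 1 := by
      rw [D]; exact Finset.card_insert_le _ _
    have h2 : ((univ.filter (fun y => y < x ∧ H.Adj y x)).biUnion (D H j)).card
        ≤ ∑ y ∈ univ.filter (fun y => y < x ∧ H.Adj y x), (D H j y).card := Finset.card_biUnion_le
    have h3 : ∑ y ∈ univ.filter (fun y => y < x ∧ H.Adj y x), (D H j y).card
        ≤ ∑ y ∈ univ.filter (fun y => y < x ∧ H.Adj y x), (k + 1) ^ j :=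
      Finset.sum_le_sum (fun y _ => ih y)
    rw [Finset.sum_const, smul_eq_mul] at h3
    have h4 := Nat.mul_le_mul_right ((k + 1) ^ j) (hH x)
    have h5 : 1 ≤ (k + 1) ^ j := Nat.one_le_pow _ _ (by omega)
    calc (D H (j + 1) x).card ≤ k * (k + 1) ^ j + 1 := by omega
      _ ≤ k * (k + 1) ^ j + (k + 1) ^ j := by omega
      _ = (k + 1) ^ (j + 1) := by ring

lemma self_mem_D {N : ℕ} (H : SimpleGraph (Fin N)) (j : ℕ) (x : Fin N) : x ∈ D H j x := by
  cases j <;> simp [D]

lemma D_mono {N : ℕ} (H : SimpleGraph (Fin N)) :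
    ∀ (j : ℕ) (x z : Fin N), z ∈ D H j x → z ∈ D H (j + 1) x := by
  intro j
  induction j with
  | zero => intro x z hz; simp [D] at hz; subst hz; exact self_mem_D H _ _
  | succ j ih =>
    intro x z hz
    rw [D, Finset.mem_insert, Finset.mem_biUnion] at hz
    rw [D, Finset.mem_insert, Finset.mem_biUnion]
    rcases hz with h | ⟨y, hy, hz⟩
    · exact Or.inl h
    · exact Or.inr ⟨y, hy, ih y z hz⟩

lemma D_mono_le {N : ℕ} (H : SimpleGraph (Fin N)) {i j : ℕ} (hij : i ≤ j) (x z : Fin N)
    (hz : z ∈ D H i x) : z ∈ D H j x := by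
  induction j, hij using Nat.le_induction with
  | base => exact hz
  | succ n _ ih => exact D_mono H n x z ih

lemma D_step {N : ℕ} {H : SimpleGraph (Fin N)}
    (hcl : ∀ v : Fin N, H.IsClique {u | u < v ∧ H.Adj u v}) :
    ∀ (j : ℕ) (x y z : Fin N), H.Adj x y → z ≤ x → z ∈ D H j y → z ∈ D H (j + 1) x := by
  intro j
  induction j with
  | zero =>
    intro x y z hxy hzx hz
    simp only [D, Finset.mem_singleton] at hz
    subst hz
    have hlt : z < x := lt_of_le_of_ne hzx (H.ne_of_adj hxy).symm
    rw [D, Finset.mem_insert, Finset.mem_biUnion]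
    exact Or.inr ⟨z, by simp [hlt, hxy.symm], by simp [D]⟩
  | succ j ih =>
    intro x y z hxy hzx hz
    rcases lt_or_gt_of_ne (H.ne_of_adj hxy) with h | h
    · -- x < y
      rw [D, Finset.mem_insert, Finset.mem_biUnion] at hz
      rcases hz with h' | ⟨y', hy', hz'⟩
      · subst h'; exact absurd (lt_of_le_of_lt hzx h) (lt_irrefl _)
      · simp only [Finset.mem_filter, Finset.mem_univ, true_and] at hy'
        by_cases hxy' : x = y'
        · subst hxy'
          exact D_mono_le H (by omega) x z hz'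
        · have hadj : H.Adj x y' := hcl y ⟨h, hxy⟩ hy' hxy'
          exact D_mono H _ _ _ (ih x y' z hadj hzx hz')
    · -- y < x
      rw [D, Finset.mem_insert, Finset.mem_biUnion]
      exact Or.inr ⟨y, by simp [h, hxy.symm], hz⟩

lemma walk_mem_D {V : Type*} {G : SimpleGraph V} {N : ℕ} {H : SimpleGraph (Fin N)} {f : V → Fin N}
    (hcl : ∀ v : Fin N, H.IsClique {u | u < v ∧ H.Adj u v})
    (hf : ∀ u v, G.Adj u v → H.Adj (f u) (f v)) :
    ∀ {v z : V} (p : G.Walk v z), (∀ x ∈ p.support, f z ≤ f x) → f z ∈ D H p.length (f v) := by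
  intro v z p
  induction p with
  | nil => intro _; simp [D]
  | @cons a b c hab q ih =>
    intro h
    have h1 : f c ∈ D H q.length (f b) := ih (fun x hx => h x (by simp [hx]))
    rw [SimpleGraph.Walk.length_cons]
    exact D_step hcl _ _ _ _ (hf _ _ hab) (h a (by simp)) h1

/-- Balls. -/
def Ball {V : Type*} (G : SimpleGraph V) (z : V) (h : ℕ) : Set V := {y | ∃ p : G.Walk z y, p.length ≤ h}

lemma ball_card {V : Type*} [Fintype V] (G : SimpleGraph V) (Δ : ℕ)
    (hΔ : ∀ v, (G.neighborSet v).ncard ≤ Δ) : ∀ (h : ℕ) (z : V), (Ball G z h).ncard ≤ (Δ + 1) ^ h := by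
  intro h
  induction h with
  | zero =>
    intro z
    have : Ball G z 0 ⊆ {z} := by
      rintro y ⟨p, hp⟩
      have := SimpleGraph.Walk.eq_of_length_eq_zero (Nat.le_zero.1 hp)
      exact this.symm
    have := Set.ncard_le_ncard this (Set.toFinite _)
    simpa using this
  | succ h ih =>
    intro z
    have hsub : Ball G z (h + 1) ⊆ insert z
        (((G.neighborSet z).toFinite.toFinset.biUnion
          (fun y => (Set.toFinite (Ball G y h)).toFinset) : Finset V) : Set V) := by
      rintro y ⟨p, hp⟩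
      cases p with
      | nil => exact Set.mem_insert _ _
      | @cons _ b _ hab q =>
        right
        rw [Finset.mem_coe, Finset.mem_biUnion]
        refine ⟨b, by simpa using hab, ?_⟩
        rw [Set.Finite.mem_toFinset]
        exact ⟨q, by rw [SimpleGraph.Walk.length_cons] at hp; omega⟩
    have h1 := Set.ncard_le_ncard hsub (Set.toFinite _)
    have h2 := Set.ncard_insert_le z (((G.neighborSet z).toFinite.toFinset.biUnion
          (fun y => (Set.toFinite (Ball G y h)).toFinset) : Finset V) : Set V)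
    rw [Set.ncard_coe_finset] at h2
    have h3 : ((G.neighborSet z).toFinite.toFinset.biUnion
          (fun y => (Set.toFinite (Ball G y h)).toFinset)).card
        ≤ ∑ y ∈ (G.neighborSet z).toFinite.toFinset, (Δ + 1) ^ h := by
      refine Finset.card_biUnion_le.trans (Finset.sum_le_sum (fun y _ => ?_))
      have := ih y
      rwa [Set.ncard_eq_toFinset_card _ (Set.toFinite _)] at this
    rw [Finset.sum_const, smul_eq_mul, ← Set.ncard_eq_toFinset_card] at h3
    have h4 := Nat.mul_le_mul_right ((Δ + 1) ^ h) (hΔ z)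
    have h5 : 1 ≤ (Δ + 1) ^ h := Nat.one_le_pow _ _ (by omega)
    calc (Ball G z (h + 1)).ncard ≤ Δ * (Δ + 1) ^ h + 1 := by omega
      _ ≤ Δ * (Δ + 1) ^ h + (Δ + 1) ^ h := by omega
      _ = (Δ + 1) ^ (h + 1) := by ring

/-- The main bound: a good ranking of the power of a partial `k`-tree. -/
theorem exists_ranking {V : Type*} [Fintype V] (k m Δ : ℕ) (G : SimpleGraph V)
    (hk : IsPartialKTree k G) (hΔ : ∀ v, (G.neighborSet v).ncard ≤ Δ) :
    ∃ r : V → ℕ, Function.Injective r ∧
      ∀ u, (Rset (gpow G m) r u).ncard ≤ (k + 1) ^ (3 * m) * (Δ + 1) ^ (m / 2) := by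
  obtain ⟨N, H, f, ⟨hN, hH⟩, hf⟩ := hk
  have hcl : ∀ v : Fin N, H.IsClique {u | u < v ∧ H.Adj u v} := fun v => (hH v).1
  have hdeg : ∀ v : Fin N, (univ.filter (fun y => y < v ∧ H.Adj y v)).card ≤ k := by
    intro v
    have h1 := (hH v).2
    have h2 : {u | u < v ∧ H.Adj u v} = ((univ.filter (fun y => y < v ∧ H.Adj y v) : Finset (Fin N)) : Set (Fin N)) := by
      ext; simp
    rw [h2, Set.ncard_coe_finset] at h1
    omega
  -- the least vertex of the ball of radius m / 2
  have hmin : ∀ v : V, ∃ a, a ∈ Ball G v (m / 2) ∧ ∀ u ∈ Ball G v (m / 2), f a ≤ f u := by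
    intro v
    obtain ⟨a, ha, h⟩ := Set.exists_min_image (Ball G v (m / 2)) f (Set.toFinite _)
      ⟨v, SimpleGraph.Walk.nil, by simp⟩
    exact ⟨a, ha, h⟩
  choose a ha1 ha2 using hmin
  set r : V → ℕ := fun v => (f (a v) : ℕ) * N + (f v : ℕ) with hr
  have hrlt : ∀ u v, r u < r v → f (a u) ≤ f (a v) := by
    intro u v h
    by_contra hcon
    push Not at hcon
    have h1 : (f (a v) : ℕ) + 1 ≤ (f (a u) : ℕ) := hcon
    have h2 : (f v : ℕ) < N := (f v).2
    have h3 : ((f (a v) : ℕ) + 1) * N ≤ (f (a u) : ℕ) * N := Nat.mul_le_mul_right N h1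
    simp only [hr] at h
    nlinarith
  have hinj : Function.Injective r := by
    intro u v h
    have h2 : (f u : ℕ) < N := (f u).2
    have h3 : (f v : ℕ) < N := (f v).2
    have h4 : r u % N = f u := by
      simp only [hr]
      rw [add_comm, Nat.add_mul_mod_self_right, Nat.mod_eq_of_lt h2]
    have h5 : r v % N = f v := by
      simp only [hr]
      rw [add_comm, Nat.add_mul_mod_self_right, Nat.mod_eq_of_lt h3]
    rw [h, h5] at h4
    exact f.injective (Fin.ext h4.symm)
  -- vertices on short walks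
  have L1 : ∀ (u v : V), r u < r v → ∀ p : G.Walk v u, p.length ≤ m → ∀ x ∈ p.support,
      f (a u) ≤ f x := by
    intro u v huv p hp x hx
    have hlen : (p.takeUntil x hx).length + (p.dropUntil x hx).length = p.length := by
      have := congrArg SimpleGraph.Walk.length (p.take_spec hx)
      rwa [SimpleGraph.Walk.length_append] at this
    rcases Nat.lt_or_ge (m / 2) (p.takeUntil x hx).length with h | h
    · -- then x is within m/2 of u
      have hx' : x ∈ Ball G u (m / 2) := ⟨(p.dropUntil x hx).reverse, by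
        rw [SimpleGraph.Walk.length_reverse]; omega⟩
      exact ha2 u x hx'
    · have hx' : x ∈ Ball G v (m / 2) := ⟨p.takeUntil x hx, h⟩
      exact (hrlt u v huv).trans (ha2 v x hx')
  refine ⟨r, hinj, fun v => ?_⟩
  -- the set is covered by balls around few vertices
  have hcov : Rset (gpow G m) r v ⊆
      (((univ.filter (fun z : V => f z ∈ D H (3 * m) (f v))).biUnion
        (fun z => (Set.toFinite (Ball G z (m / 2))).toFinset) : Finset V) : Set V) := by
    intro u hu
    have hkey : ∃ q : G.Walk v u, q.length ≤ 2 * m ∧ ∀ x ∈ q.support, f (a u) ≤ f x := by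
      obtain ⟨hlt, h | ⟨w, hw, hwv, hwu⟩⟩ := hu
      · obtain ⟨-, p, hp⟩ := h
        exact ⟨p, by omega, L1 u v hlt p hp⟩
      · obtain ⟨-, p1, hp1⟩ := hwv
        obtain ⟨-, p2, hp2⟩ := hwu
        refine ⟨p1.reverse.append p2, ?_, ?_⟩
        · rw [SimpleGraph.Walk.length_append, SimpleGraph.Walk.length_reverse]; omega
        · intro x hx
          rw [SimpleGraph.Walk.mem_support_append_iff] at hx
          rcases hx with hx | hx
          · rw [SimpleGraph.Walk.support_reverse, List.mem_reverse] at hx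
            exact (hrlt u v hlt).trans (L1 v w hw p1 hp1 x hx)
          · exact L1 u w (hlt.trans hw) p2 hp2 x hx
    obtain ⟨q, hq1, hq2⟩ := hkey
    obtain ⟨s, hs⟩ := ha1 u
    -- s : Walk u (a u)
    have hs2 : ∀ x ∈ s.support, f (a u) ≤ f x := by
      intro x hx
      apply ha2 u x
      refine ⟨s.takeUntil x hx, ?_⟩
      exact (SimpleGraph.Walk.length_takeUntil_le_length s hx).trans hs
    have hD : f (a u) ∈ D H (q.append s).length (f v) := by
      apply walk_mem_D hcl hf
      intro x hx
      rw [SimpleGraph.Walk.mem_support_append_iff] at hx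
      rcases hx with hx | hx
      · exact hq2 x hx
      · exact hs2 x hx
    rw [Finset.mem_coe, Finset.mem_biUnion]
    refine ⟨a u, ?_, ?_⟩
    · rw [Finset.mem_filter]
      refine ⟨Finset.mem_univ _, D_mono_le H ?_ _ _ hD⟩
      rw [SimpleGraph.Walk.length_append]
      omega
    · rw [Set.Finite.mem_toFinset]
      exact ⟨s.reverse, by rw [SimpleGraph.Walk.length_reverse]; exact hs⟩
  have h1 := Set.ncard_le_ncard hcov (Set.toFinite _)
  rw [Set.ncard_coe_finset] at h1
  refine h1.trans ?_
  refine Finset.card_biUnion_le.trans ?_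
  have h2 : ∑ z ∈ univ.filter (fun z : V => f z ∈ D H (3 * m) (f v)),
      ((Set.toFinite (Ball G z (m / 2))).toFinset).card
      ≤ ∑ z ∈ univ.filter (fun z : V => f z ∈ D H (3 * m) (f v)), (Δ + 1) ^ (m / 2) := by
    refine Finset.sum_le_sum (fun z _ => ?_)
    have := ball_card G Δ hΔ (m / 2) z
    rwa [Set.ncard_eq_toFinset_card _ (Set.toFinite _)] at this
  refine h2.trans ?_
  rw [Finset.sum_const, smul_eq_mul]
  refine Nat.mul_le_mul_right _ ?_
  refine le_trans ?_ (D_card hdeg (3 * m) (f v))
  apply Finset.card_le_card_of_injOn f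
  · intro z hz
    simpa using hz
  · exact f.injective.injOn

end Pool.Agent.R5.GC
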